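import Mathlib
import Pool.Agent.R444.BoseSinger3

namespace Pool.Agent.Results.MP_50e481_nt.BoseCounterexample

open Pool.Agent.R444.BoseSinger

/-- `b` is admissible if `θ^b` has degree `h` over `F`. -/
def Admissible (F : Type*) {L : Type*} [Field F] [Field L] [Algebra F L] (h : ℕ) (θ : Lˣ)
    (b : ℤ) : Prop := (minpoly F ((θ ^ b : Lˣ) : L)).natDegree = h

/-- `Bose_h(q,b)`: the residues `a` modulo `M = q^h-1`, `q = |F|`, with `θ^a = θ^b + v` for some
`v ∈ F`. -/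
def Bose (F : Type*) {L : Type*} [Field F] [Field L] [Algebra F L] (h : ℕ) (θ : Lˣ)
    (b : ℤ) : Set (ZMod (Nat.card F ^ h - 1)) :=
  {a | ∃ k : ℤ, (k : ZMod (Nat.card F ^ h - 1)) = a ∧
    ∃ v : F, ((θ ^ k : Lˣ) : L) = ((θ ^ b : Lˣ) : L) + algebraMap F L v}

/-- Affine equivalence of subsets of `ZMod M`: `A₂ = d A₁ + s` with `d` a unit modulo `M`. -/
def AffEquiv {M : ℕ} (A₁ A₂ : Set (ZMod M)) : Prop :=
  ∃ d s : ZMod M, IsUnit d ∧ A₂ = (fun a => d * a + s) '' A₁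

/-- One of the relations (i), (ii), (iii) between admissible values `b` and `e`. -/
def Step (F : Type*) {L : Type*} [Field F] [Field L] [Algebra F L] (h : ℕ) (θ : Lˣ)
    (b e : ℤ) : Prop :=
  Admissible F h θ b ∧ Admissible F h θ e ∧
    (b ≡ e [ZMOD (((Nat.card F ^ h - 1) / (Nat.card F - 1) : ℕ) : ℤ)] ∨
     (∃ v : F, ((θ ^ b : Lˣ) : L) - ((θ ^ e : Lˣ) : L) = algebraMap F L v) ∨
     (∃ i : ℕ, b ≡ (ringChar F : ℤ) ^ i * e [ZMOD ((Nat.card F ^ h - 1 : ℕ) : ℤ)]))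

/-- The smallest equivalence relation containing all pairs satisfying (i), (ii) or (iii). -/
def Approx (F : Type*) {L : Type*} [Field F] [Field L] [Algebra F L] (h : ℕ) (θ : Lˣ)
    (b e : ℤ) : Prop := Relation.EqvGen (Step F h θ) b e

lemma eqvGen_iff {α : Type*} {r : α → α → Prop} {P : α → Prop}
    (h : ∀ a b, r a b → (P a ↔ P b)) {a b : α} (hab : Relation.EqvGen r a b) : P a ↔ P b := by
  induction hab with
  | rel a b hr => exact h a b hr
  | refl a => exact Iff.rfl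
  | symm a b _ ih => exact ih.symm
  | trans a b c _ _ ih1 ih2 => exact ih1.trans ih2

section

variable {F L : Type*} [Field F] [Field L] [Algebra F L]

lemma zpow_eq_of_modEq {θ : Lˣ} (hord : orderOf θ = 19682) {m n : ℤ}
    (h : m ≡ n [ZMOD 19682]) : θ ^ m = θ ^ n := by
  apply zpow_eq_zpow_iff_modEq.mpr
  rw [hord]
  exact_mod_cast h

lemma modEq_of_zpow_eq {θ : Lˣ} (hord : orderOf θ = 19682) {m n : ℤ}
    (h : ((θ ^ m : Lˣ) : L) = ((θ ^ n : Lˣ) : L)) : m ≡ n [ZMOD 19682] := by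
  have := zpow_eq_zpow_iff_modEq.mp (Units.ext h)
  rw [hord] at this
  exact_mod_cast this

/-- the log set of an element with `z^27 = z+1` -/
lemma bose_set (hF : Nat.card F = 3) {θ : Lˣ} (hord : orderOf θ = 19682) {b : ℤ}
    (hb : ((θ ^ b : Lˣ) : L) ^ 27 = ((θ ^ b : Lˣ) : L) + 1) (k : ℤ) :
    (∃ v : F, ((θ ^ k : Lˣ) : L) = ((θ ^ b : Lˣ) : L) + algebraMap F L v) ↔
      (k ≡ b [ZMOD 19682] ∨ k ≡ 27 * b [ZMOD 19682] ∨ k ≡ 729 * b [ZMOD 19682]) := by
  obtain ⟨hchar, -⟩ := charP_of_card (L := L) hF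
  have h27 : ((θ ^ (27 * b) : Lˣ) : L) = ((θ ^ b : Lˣ) : L) + 1 := by
    rw [mul_comm, zpow_mul, ← hb]
    push_cast
    exact zpow_ofNat _ 27
  have h729 : ((θ ^ (729 * b) : Lˣ) : L) = ((θ ^ b : Lˣ) : L) + 2 := by
    rw [← pow729 _ hb, mul_comm, zpow_mul]
    push_cast
    exact zpow_ofNat _ 729
  constructor
  · rintro ⟨v, hv⟩
    rcases coe_cases (L := L) hF v with h | h | h
    · left
      rw [h, add_zero] at hv
      exact modEq_of_zpow_eq hord hv
    · right; left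
      rw [h, ← h27] at hv
      exact modEq_of_zpow_eq hord hv
    · right; right
      rw [h, ← h729] at hv
      exact modEq_of_zpow_eq hord hv
  · rintro (h | h | h)
    · exact ⟨0, by rw [zpow_eq_of_modEq hord h, map_zero, add_zero]⟩
    · exact ⟨1, by rw [zpow_eq_of_modEq hord h, h27, map_one]⟩
    · exact ⟨2, by rw [zpow_eq_of_modEq hord h, h729, map_ofNat]⟩

lemma bose_eq (hF : Nat.card F = 3) {θ : Lˣ} (hord : orderOf θ = 19682) {b : ℤ}
    (hb : ((θ ^ b : Lˣ) : L) ^ 27 = ((θ ^ b : Lˣ) : L) + 1) :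
    Bose F 9 θ b = {(b : ZMod (Nat.card F ^ 9 - 1)), ((27 * b : ℤ) : ZMod (Nat.card F ^ 9 - 1)),
      ((729 * b : ℤ) : ZMod (Nat.card F ^ 9 - 1))} := by
  have hM : ((Nat.card F ^ 9 - 1 : ℕ) : ℤ) = 19682 := by rw [hF]; norm_num
  ext a
  simp only [Bose, Set.mem_ofPred_eq, Set.mem_insert_iff, Set.mem_singleton_iff]
  constructor
  · rintro ⟨k, hk, hv⟩
    rw [← hk]
    rw [bose_set hF hord hb k] at hv
    simp only [ZMod.intCast_eq_intCast_iff, hM]
    exact hv
  · intro h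
    rcases h with h | h | h
    · exact ⟨b, h.symm, (bose_set hF hord hb b).mpr (Or.inl rfl)⟩
    · exact ⟨27 * b, h.symm, (bose_set hF hord hb _).mpr (Or.inr (Or.inl rfl))⟩
    · exact ⟨729 * b, h.symm, (bose_set hF hord hb _).mpr (Or.inr (Or.inr rfl))⟩

lemma step_inv (hF : Nat.card F = 3) {θ : Lˣ} (hord : orderOf θ = 19682) (b e : ℤ)
    (h : Step F 9 θ b e) : E ((θ ^ b : Lˣ) : L) = 0 ↔ E ((θ ^ e : Lˣ) : L) = 0 := by
  obtain ⟨hchar, hp⟩ := charP_of_card (L := L) hF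
  obtain ⟨-, -, h | h | h⟩ := h
  · rw [hF] at h
    norm_num at h
    obtain ⟨m, hm⟩ := (Int.modEq_iff_dvd.mp h.symm)
    have hb : b = e + 9841 * m := by linarith
    have hsq : ((θ ^ (9841 * m) : Lˣ) : L) ^ 2 = 1 := by
      have h1 : (θ ^ (9841 * m)) ^ 2 = (1 : Lˣ) := by
        rw [← zpow_natCast, ← zpow_mul]
        have : 9841 * m * ((2 : ℕ) : ℤ) ≡ 0 [ZMOD 19682] := by
          apply Int.modEq_zero_iff_dvd.mpr
          exact ⟨m, by push_cast; ring⟩
        rw [zpow_eq_of_modEq hord this, zpow_zero]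
      have := congrArg Units.val h1
      simpa using this
    have hz : ((θ ^ b : Lˣ) : L) = ((θ ^ e : Lˣ) : L) * ((θ ^ (9841 * m) : Lˣ) : L) := by
      rw [hb, zpow_add, Units.val_mul]
    have hsq' : (((θ ^ (9841 * m) : Lˣ) : L) - 1) * (((θ ^ (9841 * m) : Lˣ) : L) + 1) = 0 := by
      linear_combination hsq
    rcases mul_eq_zero.mp hsq' with h | h
    · rw [hz, sub_eq_zero.mp h, mul_one]
    · rw [hz, eq_neg_of_add_eq_zero_left h, mul_neg_one, E_neg]
  · obtain ⟨v, hv⟩ := h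
    have hb : ((θ ^ b : Lˣ) : L) = ((θ ^ e : Lˣ) : L) + algebraMap F L v := by
      linear_combination hv
    rw [hb, E_add _ _ (coe_cube hF v)]
  · obtain ⟨i, hi⟩ := h
    rw [hF, hp] at hi
    have hb : ((θ ^ b : Lˣ) : L) = ((θ ^ e : Lˣ) : L) ^ 3 ^ i := by
      have h2 : b ≡ (3:ℤ) ^ i * e [ZMOD 19682] := by
        norm_num at hi
        exact hi
      rw [zpow_eq_of_modEq hord h2, mul_comm, zpow_mul]
      push_cast
      rw [← zpow_natCast]
      norm_num
    rw [hb, E_frob_zero]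

end

/-- **Q1 is false.**  For `h = 9` and `q = 3`, whatever the field `F` with `3` elements, its
extension `L` of degree `9` and the generator `θ` of `Lˣ`: there are admissible `b, e` for which
the Bose sets are affinely equivalent although `b ≉ e`. -/
theorem result (F L : Type*) [Field F] [Field L] [Algebra F L] (hF : Nat.card F = 3)
    (hd : Module.finrank F L = 9) (θ : Lˣ) (hθ : ∀ x : Lˣ, x ∈ Subgroup.zpowers θ) :
    ∃ b e : ℤ, Admissible F 9 θ b ∧ Admissible F 9 θ e ∧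
      AffEquiv (Bose F 9 θ b) (Bose F 9 θ e) ∧ ¬ Approx F 9 θ b e := by
  obtain ⟨hord, a, c, d, d', ha, hc, hcd, hdd, hEa, hEc⟩ := exists_exponents hF hd θ hθ
  have hM : Nat.card F ^ 9 - 1 = 19682 := by rw [hF]; norm_num
  refine ⟨a, c, natDegree_eq_nine hF hd _ ha, natDegree_eq_nine hF hd _ hc, ?_, ?_⟩
  · refine ⟨(d : ZMod (Nat.card F ^ 9 - 1)), 0, ?_, ?_⟩
    · apply IsUnit.of_mul_eq_one (d' : ZMod (Nat.card F ^ 9 - 1))
      have h : ((d * d' : ℤ) : ZMod (Nat.card F ^ 9 - 1)) = ((1 : ℤ) : ZMod (Nat.card F ^ 9 - 1)) := by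
        rw [ZMod.intCast_eq_intCast_iff, hM]
        exact_mod_cast hdd
      push_cast at h
      exact h
    · rw [bose_eq hF hord ha, bose_eq hF hord hc, hcd]
      rw [Set.image_insert_eq, Set.image_insert_eq, Set.image_singleton]
      push_cast
      congr 1
      · ring
      · congr 1
        · ring
        · congr 1
          ring
  · intro h
    have := eqvGen_iff (P := fun b : ℤ => E ((θ ^ b : Lˣ) : L) = 0)
      (fun b e hbe => step_inv hF hord b e hbe) h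
    exact hEc (this.mp hEa)

end Pool.Agent.Results.MP_50e481_nt.BoseCounterexample
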