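import Mathlib
import Pool.Agent.R444.BoseSinger3

namespace Pool.Agent.Results.MP_50e481_nt.SingerCounterexample

open Pool.Agent.R444.BoseSinger

/-- `b` is admissible if `θ^b` has degree `h+1` over `F`. -/
def Admissible (F : Type*) {L : Type*} [Field F] [Field L] [Algebra F L] (h : ℕ) (θ : Lˣ)
    (b : ℤ) : Prop := (minpoly F ((θ ^ b : Lˣ) : L)).natDegree = h + 1

/-- The modulus `M = (q^(h+1)-1)/(q-1)`, `q = |F|`. -/
noncomputable def modulus (F : Type*) (h : ℕ) : ℕ :=
  (Nat.card F ^ (h + 1) - 1) / (Nat.card F - 1)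

/-- `Singer_h(q,b)`: the residues `a` modulo `M = (q^(h+1)-1)/(q-1)`, `q = |F|`, with
`θ^a = u θ^b + v` for some `u, v ∈ F`. -/
def Singer (F : Type*) {L : Type*} [Field F] [Field L] [Algebra F L] (h : ℕ) (θ : Lˣ)
    (b : ℤ) : Set (ZMod (modulus F h)) :=
  {a | ∃ k : ℤ, (k : ZMod (modulus F h)) = a ∧
    ∃ u v : F, ((θ ^ k : Lˣ) : L) = algebraMap F L u * ((θ ^ b : Lˣ) : L) + algebraMap F L v}

/-- Affine equivalence of subsets of `ZMod M`: `A₂ = d A₁ + s` with `d` a unit modulo `M`. -/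
def AffEquiv {M : ℕ} (A₁ A₂ : Set (ZMod M)) : Prop :=
  ∃ d s : ZMod M, IsUnit d ∧ A₂ = (fun a => d * a + s) '' A₁

/-- One of the relations (iv), (v), (vi), (vii) between admissible values `b` and `e`. -/
def Step (F : Type*) {L : Type*} [Field F] [Field L] [Algebra F L] (h : ℕ) (θ : Lˣ)
    (b e : ℤ) : Prop :=
  Admissible F h θ b ∧ Admissible F h θ e ∧
    (b ≡ e [ZMOD (modulus F h : ℤ)] ∨
     (∃ i : ℕ, b ≡ (ringChar F : ℤ) ^ i * e [ZMOD ((Nat.card F ^ (h + 1) - 1 : ℕ) : ℤ)]) ∨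
     (∃ v : F, ((θ ^ b : Lˣ) : L) - ((θ ^ e : Lˣ) : L) = algebraMap F L v) ∨
     (∃ r t w v : F, (r, t) ≠ (0, 0) ∧
        algebraMap F L r * ((θ ^ b : Lˣ) : L) + algebraMap F L t * ((θ ^ (e + b) : Lˣ) : L) +
          algebraMap F L w * ((θ ^ e : Lˣ) : L) = algebraMap F L v))

/-- The smallest equivalence relation containing all pairs satisfying (iv), (v), (vi) or (vii). -/
def Approx (F : Type*) {L : Type*} [Field F] [Field L] [Algebra F L] (h : ℕ) (θ : Lˣ)
    (b e : ℤ) : Prop := Relation.EqvGen (Step F h θ) b e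

lemma eqvGen_iff {α : Type*} {r : α → α → Prop} {P : α → Prop}
    (h : ∀ a b, r a b → (P a ↔ P b)) {a b : α} (hab : Relation.EqvGen r a b) : P a ↔ P b := by
  induction hab with
  | rel a b hr => exact h a b hr
  | refl a => exact Iff.rfl
  | symm a b _ ih => exact ih.symm
  | trans a b c _ _ ih1 ih2 => exact ih1.trans ih2

section

variable {F L : Type*} [Field F] [Field L] [Algebra F L]

omit [Field F] in
lemma modulus_eq (hF : Nat.card F = 3) : modulus F 8 = 9841 := by
  unfold modulus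
  rw [hF]
  norm_num

lemma zpow_eq_of_modEq {θ : Lˣ} (hord : orderOf θ = 19682) {m n : ℤ}
    (h : m ≡ n [ZMOD 19682]) : θ ^ m = θ ^ n := by
  apply zpow_eq_zpow_iff_modEq.mpr
  rw [hord]
  exact_mod_cast h

/-- `θ^m = ε θ^n` with `ε^2 = 1` forces `m ≡ n` modulo `9841`. -/
lemma modEq_of_mul {θ : Lˣ} (hord : orderOf θ = 19682) {m n : ℤ} {ε : L} (hε : ε ^ 2 = 1)
    (h : ((θ ^ m : Lˣ) : L) = ε * ((θ ^ n : Lˣ) : L)) : m ≡ n [ZMOD 9841] := by
  have h1 : ((θ ^ (m * 2) : Lˣ) : L) = ((θ ^ (n * 2) : Lˣ) : L) := by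
    have e : ∀ j : ℤ, ((θ ^ (j * 2) : Lˣ) : L) = ((θ ^ j : Lˣ) : L) ^ 2 := by
      intro j
      rw [zpow_mul]
      push_cast
      exact zpow_ofNat _ 2
    rw [e, e, h, mul_pow, hε, one_mul]
  have h2 := zpow_eq_zpow_iff_modEq.mp (Units.ext h1)
  rw [hord] at h2
  have h3 : m * 2 ≡ n * 2 [ZMOD 19682] := by exact_mod_cast h2
  obtain ⟨c, hc⟩ := Int.modEq_iff_dvd.mp h3
  apply Int.modEq_iff_dvd.mpr
  exact ⟨c, by linarith⟩

/-- conversely -/
lemma mul_of_modEq {θ : Lˣ} (hord : orderOf θ = 19682) {m n : ℤ} (h : m ≡ n [ZMOD 9841]) :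
    ((θ ^ m : Lˣ) : L) = ((θ ^ n : Lˣ) : L) ∨ ((θ ^ m : Lˣ) : L) = -((θ ^ n : Lˣ) : L) := by
  obtain ⟨c, hc⟩ := Int.modEq_iff_dvd.mp h.symm
  have hb : m = n + 9841 * c := by linarith
  have hsq : ((θ ^ (9841 * c) : Lˣ) : L) ^ 2 = 1 := by
    have h1 : (θ ^ (9841 * c)) ^ 2 = (1 : Lˣ) := by
      rw [← zpow_natCast, ← zpow_mul]
      have : 9841 * c * ((2 : ℕ) : ℤ) ≡ 0 [ZMOD 19682] := by
        apply Int.modEq_zero_iff_dvd.mpr
        exact ⟨c, by push_cast; ring⟩
      rw [zpow_eq_of_modEq hord this, zpow_zero]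
    have := congrArg Units.val h1
    simpa using this
  have hz : ((θ ^ m : Lˣ) : L) = ((θ ^ n : Lˣ) : L) * ((θ ^ (9841 * c) : Lˣ) : L) := by
    rw [hb, zpow_add, Units.val_mul]
  have hsq' : (((θ ^ (9841 * c) : Lˣ) : L) - 1) * (((θ ^ (9841 * c) : Lˣ) : L) + 1) = 0 := by
    linear_combination hsq
  rcases mul_eq_zero.mp hsq' with h | h
  · left
    rw [hz, sub_eq_zero.mp h, mul_one]
  · right
    rw [hz, eq_neg_of_add_eq_zero_left h, mul_neg_one]

lemma coe_sq (hF : Nat.card F = 3) {u : F} (hu : u ≠ 0) : (algebraMap F L u) ^ 2 = 1 := by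
  have h3 := coe_cube (L := L) hF u
  have h0 : algebraMap F L u ≠ 0 := by rwa [Ne, map_eq_zero]
  have : algebraMap F L u * ((algebraMap F L u) ^ 2 - 1) = 0 := by linear_combination h3
  rcases mul_eq_zero.mp this with h | h
  · exact absurd h h0
  · linear_combination h

/-- the log set of an element with `z^27 = z+1` -/
lemma singer_set (hF : Nat.card F = 3) {θ : Lˣ} (hord : orderOf θ = 19682) {b : ℤ}
    (hb : ((θ ^ b : Lˣ) : L) ^ 27 = ((θ ^ b : Lˣ) : L) + 1) (k : ℤ) :
    (∃ u v : F, ((θ ^ k : Lˣ) : L) =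
      algebraMap F L u * ((θ ^ b : Lˣ) : L) + algebraMap F L v) ↔
      (k ≡ 0 [ZMOD 9841] ∨ k ≡ b [ZMOD 9841] ∨ k ≡ 27 * b [ZMOD 9841] ∨
        k ≡ 729 * b [ZMOD 9841]) := by
  obtain ⟨hchar, -⟩ := charP_of_card (L := L) hF
  have h27 : ((θ ^ (27 * b) : Lˣ) : L) = ((θ ^ b : Lˣ) : L) + 1 := by
    rw [mul_comm, zpow_mul, ← hb]
    push_cast
    exact zpow_ofNat _ 27
  have h729 : ((θ ^ (729 * b) : Lˣ) : L) = ((θ ^ b : Lˣ) : L) + 2 := by
    rw [← pow729 _ hb, mul_comm, zpow_mul]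
    push_cast
    exact zpow_ofNat _ 729
  constructor
  · rintro ⟨u, v, hv⟩
    by_cases hu : u = 0
    · left
      subst hu
      rw [map_zero, zero_mul, zero_add] at hv
      have hv0 : v ≠ 0 := by
        rintro rfl
        rw [map_zero] at hv
        exact (θ ^ k).ne_zero hv
      apply modEq_of_mul hord (coe_sq (L := L) hF hv0)
      rw [hv, zpow_zero, Units.val_one, mul_one]
    · right
      have hu2 := coe_sq (L := L) hF hu
      have hu0 : algebraMap F L u ≠ 0 := by rwa [Ne, map_eq_zero]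
      have hv' : ((θ ^ k : Lˣ) : L) =
          algebraMap F L u * (((θ ^ b : Lˣ) : L) + algebraMap F L (v / u)) := by
        rw [hv, map_div₀]
        field_simp
      rcases coe_cases (L := L) hF (v / u) with h | h | h
      · left
        rw [h, add_zero] at hv'
        exact modEq_of_mul hord hu2 hv'
      · right; left
        rw [h, ← h27] at hv'
        exact modEq_of_mul hord hu2 hv'
      · right; right
        rw [h, ← h729] at hv'
        exact modEq_of_mul hord hu2 hv'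
  · rintro (h | h | h | h)
    · rcases mul_of_modEq hord h with h | h
      · exact ⟨0, 1, by rw [h]; simp⟩
      · exact ⟨0, -1, by rw [h]; simp⟩
    · rcases mul_of_modEq hord h with h | h
      · exact ⟨1, 0, by rw [h]; simp⟩
      · exact ⟨-1, 0, by rw [h]; simp⟩
    · rcases mul_of_modEq hord h with h | h
      · exact ⟨1, 1, by rw [h, h27]; simp⟩
      · exact ⟨-1, -1, by rw [h, h27, map_neg, map_one]; ring⟩
    · rcases mul_of_modEq hord h with h | h
      · exact ⟨1, 2, by rw [h, h729, map_one, map_ofNat]; ring⟩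
      · exact ⟨-1, -2, by rw [h, h729, map_neg, map_neg, map_one, map_ofNat]; ring⟩

lemma singer_eq (hF : Nat.card F = 3) {θ : Lˣ} (hord : orderOf θ = 19682) {b : ℤ}
    (hb : ((θ ^ b : Lˣ) : L) ^ 27 = ((θ ^ b : Lˣ) : L) + 1) :
    Singer F 8 θ b = {(0 : ZMod (modulus F 8)), (b : ZMod (modulus F 8)),
      ((27 * b : ℤ) : ZMod (modulus F 8)), ((729 * b : ℤ) : ZMod (modulus F 8))} := by
  have hM : ((modulus F 8 : ℕ) : ℤ) = 9841 := by rw [modulus_eq hF]; norm_num
  ext a
  simp only [Singer, Set.mem_ofPred_eq, Set.mem_insert_iff, Set.mem_singleton_iff]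
  constructor
  · rintro ⟨k, hk, hv⟩
    rw [← hk]
    rw [singer_set hF hord hb k] at hv
    have e0 : (k : ZMod (modulus F 8)) = 0 ↔ k ≡ 0 [ZMOD 9841] := by
      rw [← Int.cast_zero, ZMod.intCast_eq_intCast_iff, hM]
    simp only [ZMod.intCast_eq_intCast_iff, hM, e0]
    exact hv
  · intro h
    rcases h with h | h | h | h
    · exact ⟨0, by rw [h, Int.cast_zero], (singer_set hF hord hb 0).mpr (Or.inl rfl)⟩
    · exact ⟨b, h.symm, (singer_set hF hord hb b).mpr (Or.inr (Or.inl rfl))⟩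
    · exact ⟨27 * b, h.symm, (singer_set hF hord hb _).mpr (Or.inr (Or.inr (Or.inl rfl)))⟩
    · exact ⟨729 * b, h.symm, (singer_set hF hord hb _).mpr (Or.inr (Or.inr (Or.inr rfl)))⟩

lemma step_inv (hF : Nat.card F = 3) {θ : Lˣ} (hord : orderOf θ = 19682) (b e : ℤ)
    (h : Step F 8 θ b e) : E ((θ ^ b : Lˣ) : L) = 0 ↔ E ((θ ^ e : Lˣ) : L) = 0 := by
  obtain ⟨hchar, hp⟩ := charP_of_card (L := L) hF
  obtain ⟨hAb, hAe, h | h | h | h⟩ := h
  · rw [modulus_eq hF] at h
    rcases mul_of_modEq (m := b) (n := e) hord (by exact_mod_cast h) with h | h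
    · rw [h]
    · rw [h, E_neg]
  · obtain ⟨i, hi⟩ := h
    rw [hF, hp] at hi
    have hb : ((θ ^ b : Lˣ) : L) = ((θ ^ e : Lˣ) : L) ^ 3 ^ i := by
      have h2 : b ≡ (3:ℤ) ^ i * e [ZMOD 19682] := by
        norm_num at hi
        exact hi
      rw [zpow_eq_of_modEq hord h2, mul_comm, zpow_mul]
      push_cast
      rw [← zpow_natCast]
      norm_num
    rw [hb, E_frob_zero]
  · obtain ⟨v, hv⟩ := h
    have hb : ((θ ^ b : Lˣ) : L) = ((θ ^ e : Lˣ) : L) + algebraMap F L v := by
      linear_combination hv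
    rw [hb, E_add _ _ (coe_cube hF v)]
  · obtain ⟨r, t, w, v, hrt, hrel⟩ := h
    have hbF := not_mem_of_natDegree (F := F) _ hAb
    have heF := not_mem_of_natDegree (F := F) _ hAe
    rw [zpow_add, Units.val_mul] at hrel
    have hlin : ∀ (z : L), (∀ c : F, algebraMap F L c ≠ z) → ∀ c1 c2 : F,
        algebraMap F L c1 * z + algebraMap F L c2 = 0 → c1 = 0 ∧ c2 = 0 := by
      intro z hz c1 c2 h
      by_cases h1 : c1 = 0
      · subst h1
        rw [map_zero, zero_mul, zero_add, map_eq_zero] at h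
        exact ⟨rfl, h⟩
      · exfalso
        apply hz (-c2 / c1)
        have h1' : algebraMap F L c1 ≠ 0 := by rwa [Ne, map_eq_zero]
        rw [map_div₀, div_eq_iff h1', map_neg]
        linear_combination -h
    have hB : algebraMap F L t * ((θ ^ b : Lˣ) : L) + algebraMap F L w ≠ 0 := by
      intro h0
      obtain ⟨h1, h2⟩ := hlin _ hbF t w h0
      subst h1
      subst h2
      have h3 : algebraMap F L r * ((θ ^ b : Lˣ) : L) + algebraMap F L (-v) = 0 := by
        rw [map_neg]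
        rw [map_zero] at hrel
        linear_combination hrel
      obtain ⟨h4, -⟩ := hlin _ hbF r (-v) h3
      exact hrt (by rw [h4])
    have hD : algebraMap F L v * algebraMap F L t + algebraMap F L r * algebraMap F L w ≠ 0 := by
      intro h0
      have h1 : (algebraMap F L t * ((θ ^ e : Lˣ) : L) + algebraMap F L r) *
          (algebraMap F L t * ((θ ^ b : Lˣ) : L) + algebraMap F L w) = 0 := by
        linear_combination (algebraMap F L t) * hrel + h0
      rcases mul_eq_zero.mp h1 with h2 | h2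
      · obtain ⟨h3, h4⟩ := hlin _ heF t r h2
        exact hrt (by rw [h3, h4])
      · exact hB h2
    exact (E_moebius _ _ _ _ _ _ (coe_cube hF r) (coe_cube hF t) (coe_cube hF w)
      (coe_cube hF v) hrel hB hD).symm

end

/-- **Q2 is false.**  For `h = 8` and `q = 3`, whatever the field `F` with `3` elements, its
extension `L` of degree `9` and the generator `θ` of `Lˣ`: there are admissible `b, e` for which
the Singer sets are affinely equivalent although `b ≉ e`. -/
theorem result (F L : Type*) [Field F] [Field L] [Algebra F L] (hF : Nat.card F = 3)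
    (hd : Module.finrank F L = 9) (θ : Lˣ) (hθ : ∀ x : Lˣ, x ∈ Subgroup.zpowers θ) :
    ∃ b e : ℤ, Admissible F 8 θ b ∧ Admissible F 8 θ e ∧
      AffEquiv (Singer F 8 θ b) (Singer F 8 θ e) ∧ ¬ Approx F 8 θ b e := by
  obtain ⟨hord, a, c, d, d', ha, hc, hcd, hdd, hEa, hEc⟩ := exists_exponents hF hd θ hθ
  refine ⟨a, c, natDegree_eq_nine hF hd _ ha, natDegree_eq_nine hF hd _ hc, ?_, ?_⟩
  · refine ⟨(d : ZMod (modulus F 8)), 0, ?_, ?_⟩
    · apply IsUnit.of_mul_eq_one (d' : ZMod (modulus F 8))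
      have h : ((d * d' : ℤ) : ZMod (modulus F 8)) = ((1 : ℤ) : ZMod (modulus F 8)) := by
        rw [ZMod.intCast_eq_intCast_iff, modulus_eq hF]
        exact Int.ModEq.of_dvd ⟨2, by norm_num⟩ hdd
      push_cast at h
      exact h
    · rw [singer_eq hF hord ha, singer_eq hF hord hc, hcd]
      rw [Set.image_insert_eq, Set.image_insert_eq, Set.image_insert_eq, Set.image_singleton]
      push_cast
      congr 1
      · ring
      · congr 1
        · ring
        · congr 1
          · ring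
          · congr 1
            ring
  · intro h
    have := eqvGen_iff (P := fun b : ℤ => E ((θ ^ b : Lˣ) : L) = 0)
      (fun b e hbe => step_inv hF hord b e hbe) h
    exact hEc (this.mp hEa)

end Pool.Agent.Results.MP_50e481_nt.SingerCounterexample
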